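import Mathlib

/-!
# An exchange lemma for algebraic independence, and the domain of analytic functions
-/

set_option autoImplicit false

namespace Pool.Agent.K1H12.MS

open Function Set

/-- If `f` is algebraically independent and `t` is transcendental, `t` can replace one of the
members of `f`. -/
theorem exch {K A : Type} [Field K] [CommRing A] [IsDomain A] [Algebra K A] {n : ℕ} (t : A)
    (f : Fin (n + 1) → A) (hf : AlgebraicIndependent K f) (ht : AlgebraicIndepOn K id {t}) :
    ∃ e : Fin n → Fin (n + 1), Injective e ∧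
      AlgebraicIndependent K (fun o : Option (Fin n) => o.elim t fun i => f (e i)) := by
  classical
  let M := AlgebraicIndependent.matroid K A
  have hI : M.Indep {t} := ht
  have hJ : M.Indep (range f) := by
    show AlgebraicIndepOn K id (range f)
    exact hf.to_subtype_range
  obtain ⟨I', hI', hII'⟩ := hI.subset_isBasis_of_subset
    (show ({t} : Set A) ⊆ {t} ∪ range f from subset_union_left) (subset_univ _)
  obtain ⟨J', hJ', hJJ'⟩ := hJ.subset_isBasis_of_subset
    (show range f ⊆ {t} ∪ range f from subset_union_right) (subset_univ _)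
  have hcard : ((n + 1 : ℕ) : ℕ∞) ≤ I'.encard := by
    rw [hI'.encard_eq_encard hJ']
    refine le_trans ?_ (encard_le_encard hJJ')
    rw [← image_univ, hf.injective.injOn.encard_image, encard_univ]
    simp
  have hmem : t ∈ I' := hII' rfl
  have h1 : ((n : ℕ) : ℕ∞) ≤ (I' \ {t}).encard := by
    have h2 := encard_diff_singleton_add_one hmem
    rw [← h2] at hcard
    push_cast at hcard
    exact (ENat.add_le_add_iff_right (by simp)).1 hcard
  obtain ⟨S, hS, hSc⟩ := exists_subset_encard_eq h1
  have hfin : S.Finite := finite_of_encard_eq_coe hSc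
  have hSn : hfin.toFinset.card = n := by
    have := hfin.encard_eq_coe_toFinset_card
    rw [hSc] at this
    exact_mod_cast this.symm
  let g : Fin n ≃ hfin.toFinset := (hfin.toFinset.equivFinOfCardEq hSn).symm
  have hg : ∀ i, ((g i : A)) ∈ I' \ {t} := fun i => hS (hfin.mem_toFinset.1 (g i).2)
  have hsub := hI'.subset
  have hr : ∀ i, ∃ k, f k = (g i : A) := by
    intro i
    rcases hsub (hg i).1 with h | ⟨k, hk⟩
    · exact absurd h (hg i).2
    · exact ⟨k, hk⟩
  choose e he using hr
  refine ⟨e, ?_, ?_⟩
  · intro a b hab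
    apply g.injective
    apply Subtype.ext
    rw [← he a, ← he b, hab]
  · have h3 : AlgebraicIndependent K ((↑) : I' → A) := hI'.indep
    let w : Option (Fin n) → I' := fun o => o.elim ⟨t, hmem⟩ fun i => ⟨g i, (hg i).1⟩
    have hw : Injective w := by
      intro a b hab
      cases a with
      | none =>
        cases b with
        | none => rfl
        | some b =>
          exfalso
          exact (hg b).2 (congrArg Subtype.val hab).symm
      | some a =>
        cases b with
        | none =>
          exfalso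
          exact (hg a).2 (congrArg Subtype.val hab)
        | some b =>
          have : (g a : A) = g b := congrArg (fun z : I' => (z : A)) hab
          rw [g.injective (Subtype.ext this)]
    have h4 := h3.comp w hw
    have h5 : (fun o : Option (Fin n) => o.elim t fun i => f (e i)) = ((↑) : I' → A) ∘ w := by
      funext o
      cases o with
      | none => rfl
      | some i => exact he i
    rw [h5]
    exact h4

/-- the algebra of the functions on `Ω` that are analytic -/
def An (Ω : Set ℂ) : Subalgebra ℂ (Ω → ℂ) where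
  carrier := {f | ∃ F : ℂ → ℂ, AnalyticOnNhd ℂ F Ω ∧ ∀ x : Ω, f x = F x}
  mul_mem' := by
    rintro f g ⟨F, hF, hf⟩ ⟨G, hG, hg⟩
    exact ⟨fun x => F x * G x, fun x hx => (hF x hx).mul (hG x hx), fun x => by
      rw [Pi.mul_apply, hf, hg]⟩
  add_mem' := by
    rintro f g ⟨F, hF, hf⟩ ⟨G, hG, hg⟩
    exact ⟨fun x => F x + G x, fun x hx => (hF x hx).add (hG x hx), fun x => by
      rw [Pi.add_apply, hf, hg]⟩
  algebraMap_mem' := fun c => ⟨fun _ => c, fun _ _ => analyticAt_const, fun _ => rfl⟩

theorem An.isDomain {Ω : Set ℂ} (ho : IsOpen Ω) (hc : IsPreconnected Ω) (hn : Ω.Nonempty) :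
    IsDomain (An Ω) := by
  have : Nonempty Ω := hn.to_subtype
  have : Nontrivial (An Ω) := by
    refine ⟨⟨0, 1, fun h => ?_⟩⟩
    obtain ⟨x⟩ := this
    have h1 := congrArg (fun f : An Ω => (f : Ω → ℂ) x) h
    exact zero_ne_one h1
  have : NoZeroDivisors (An Ω) := by
    refine ⟨?_⟩
    rintro ⟨f, F, hF, hf⟩ ⟨g, G, hG, hg⟩ h
    have h0 : ∀ x : Ω, F x * G x = 0 := by
      intro x
      have h1 := congrArg (fun f : An Ω => (f : Ω → ℂ) x) h
      change f x * g x = 0 at h1
      rw [hf, hg] at h1
      exact h1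
    by_cases hz : ∀ x : Ω, F x = 0
    · left
      apply Subtype.ext
      funext x
      show f x = 0
      rw [hf, hz]
    · right
      push_neg at hz
      obtain ⟨x0, hx0⟩ := hz
      have h2 : ∀ᶠ z in nhds (x0 : ℂ), F z ≠ 0 :=
        (hF x0 x0.2).continuousAt.eventually_ne hx0
      have h3 : G =ᶠ[nhds (x0 : ℂ)] 0 := by
        filter_upwards [h2, ho.mem_nhds x0.2] with z hz hzΩ
        have := h0 ⟨z, hzΩ⟩
        exact (mul_eq_zero.1 this).resolve_left hz
      have h4 := hG.eqOn_zero_of_preconnected_of_eventuallyEq_zero hc x0.2 h3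
      apply Subtype.ext
      funext x
      show g x = 0
      rw [hg]
      exact h4 x.2
  exact NoZeroDivisors.to_isDomain _

/-- the values of a polynomial in analytic functions -/
theorem An.aeval {κ : Type} {Ω : Set ℂ} (f : κ → An Ω) (P : MvPolynomial κ ℂ) (x : Ω) :
    ((MvPolynomial.aeval f P : An Ω) : Ω → ℂ) x =
      MvPolynomial.eval (fun i => (f i : Ω → ℂ) x) P := by
  induction P using MvPolynomial.induction_on with
  | C a => simp [Algebra.algebraMap_eq_smul_one]
  | add p q hp hq =>
    rw [map_add, map_add]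
    show ((MvPolynomial.aeval f p : An Ω) : Ω → ℂ) x + ((MvPolynomial.aeval f q : An Ω) : Ω → ℂ) x = _
    rw [hp, hq]
  | mul_X p i hp =>
    rw [map_mul, map_mul, MvPolynomial.aeval_X, MvPolynomial.eval_X]
    show ((MvPolynomial.aeval f p : An Ω) : Ω → ℂ) x * (f i : Ω → ℂ) x = _
    rw [hp]

/-- algebraic independence of analytic functions -/
theorem An.indep_iff {κ : Type} {Ω : Set ℂ} (f : κ → An Ω) : AlgebraicIndependent ℂ f ↔
    ∀ P : MvPolynomial κ ℂ,
      (∀ x : Ω, MvPolynomial.eval (fun i => (f i : Ω → ℂ) x) P = 0) → P = 0 := by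
  rw [algebraicIndependent_iff]
  refine forall_congr' fun P => ?_
  have : MvPolynomial.aeval f P = 0 ↔
      ∀ x : Ω, MvPolynomial.eval (fun i => (f i : Ω → ℂ) x) P = 0 := by
    constructor
    · intro h x
      rw [← An.aeval, h]
      rfl
    · intro h
      apply Subtype.ext
      funext x
      rw [An.aeval, h]
      rfl
  rw [this]

/-- **Exchange for analytic functions.** If `n + 1` analytic functions on a domain are
algebraically independent over `ℂ`, then some `n` of them are algebraically independent together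
with the identity. -/
theorem exch_an {Ω : Set ℂ} (ho : IsOpen Ω) (hc : IsPreconnected Ω) (hn : Ω.Nonempty) {n : ℕ}
    (f : Fin (n + 1) → ℂ → ℂ) (hf : ∀ i, AnalyticOnNhd ℂ (f i) Ω)
    (hi : ∀ P : MvPolynomial (Fin (n + 1)) ℂ,
      (∀ t ∈ Ω, MvPolynomial.eval (fun i => f i t) P = 0) → P = 0) :
    ∃ e : Fin n → Fin (n + 1), Injective e ∧ ∀ P : MvPolynomial (Option (Fin n)) ℂ,
      (∀ t ∈ Ω, MvPolynomial.eval (fun o : Option (Fin n) => o.elim t fun i => f (e i) t) P = 0) →
        P = 0 := by
  have := An.isDomain ho hc hn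
  let F : Fin (n + 1) → An Ω := fun i => ⟨fun x => f i x, f i, hf i, fun _ => rfl⟩
  let t : An Ω := ⟨fun x => x, id, fun _ _ => analyticAt_id, fun _ => rfl⟩
  have hF : AlgebraicIndependent ℂ F := by
    rw [An.indep_iff]
    intro P hP
    exact hi P fun t ht => hP ⟨t, ht⟩
  have ht : AlgebraicIndepOn ℂ id {t} := by
    refine algebraicIndependent_unique_type_iff.2 ?_
    show Transcendental ℂ t
    intro hal
    obtain ⟨p, hp, hp0⟩ := hal
    have h2 : Ω.Infinite := by
      obtain ⟨x, hx⟩ := hn
      exact infinite_of_mem_nhds x (ho.mem_nhds hx)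
    apply hp
    refine Polynomial.eq_zero_of_infinite_isRoot p (h2.mono fun x hx => ?_)
    have h3 := congrArg ((Pi.evalAlgHom ℂ (fun _ : Ω => ℂ) ⟨x, hx⟩).comp (An Ω).val) hp0
    rw [← Polynomial.aeval_algHom_apply, map_zero] at h3
    have h4 : ((Pi.evalAlgHom ℂ (fun _ : Ω => ℂ) ⟨x, hx⟩).comp (An Ω).val) t = x := rfl
    rw [h4] at h3
    exact h3
  obtain ⟨e, he, hE⟩ := exch t F hF ht
  refine ⟨e, he, fun P hP => ?_⟩
  rw [An.indep_iff] at hE
  refine hE P fun x => ?_
  rw [← hP x x.2]
  congr 1
  congr 1
  funext o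
  cases o <;> rfl

end Pool.Agent.K1H12.MS
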