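import Pool.Agent.Results.MP_5e64e7_nt.AlgebraicNomes
import Pool.Agent.K1H12.MS.Exch

/-!
# The functions `e(z)`, `z`, `j`, `j'`, `j''` along an analytic curve
-/

set_option autoImplicit false

open Set Filter Topology

namespace Pool.Agent.K1H12.MS

open Pool.Agent.Results.MP_5e64e7_nt.AlgebraicNomes (z four SlitDisc z_im z_an locInd two_pi_I)
open Pool.Agent.TH21.MS (jj jj_an)

/-- `e(z)`, `z`, `j(z)`, `j'(z)`, `j''(z)` -/
noncomputable def five (w : ℂ) : Fin 5 → ℂ :=
  ![Complex.exp (2 * (Real.pi : ℂ) * Complex.I * w), w, jj w, deriv jj w, deriv (deriv jj) w]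

lemma five_an (i : Fin 5) (w : ℂ) (hw : 0 < w.im) : AnalyticAt ℂ (fun w => five w i) w := by
  have h := jj_an w hw
  fin_cases i
  · show AnalyticAt ℂ (fun w => Complex.exp (2 * (Real.pi : ℂ) * Complex.I * w)) w
    exact (analyticAt_const.mul analyticAt_id).cexp
  · exact analyticAt_id
  · exact h
  · exact h.deriv
  · exact h.deriv.deriv

/-- the scaling factors -/
noncomputable def sc : Fin 5 → ℂ :=
  ![1, (2 * (Real.pi : ℂ) * Complex.I)⁻¹, 1, 2 * (Real.pi : ℂ) * Complex.I,
    (2 * (Real.pi : ℂ) * Complex.I) ^ 2]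

/-- the index -/
def tau : Fin 5 → Option (Fin 4) := ![none, some 0, some 1, some 2, some 3]

/-- the inverse index -/
def tau' : Option (Fin 4) → Fin 5 := fun o => o.elim 0 fun i => i.succ

lemma tau_tau' (i : Fin 5) : tau' (tau i) = i := by
  fin_cases i <;> rfl

lemma sc_ne (i : Fin 5) : sc i ≠ 0 := by
  have h := two_pi_I
  fin_cases i
  · exact one_ne_zero
  · exact inv_ne_zero h
  · exact one_ne_zero
  · exact h
  · exact pow_ne_zero 2 h

lemma five_eq (x : ℂ) (hx : x ∈ SlitDisc) (i : Fin 5) :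
    five (z x) i = sc i * ((tau i).elim x fun k => four x k) := by
  have h := two_pi_I
  have hx0 : x ≠ 0 := Complex.slitPlane_ne_zero hx.2
  fin_cases i
  · show Complex.exp (2 * (Real.pi : ℂ) * Complex.I * z x) = 1 * x
    rw [one_mul]
    unfold z
    rw [mul_div_cancel₀ _ h, Complex.exp_log hx0]
  · show z x = (2 * (Real.pi : ℂ) * Complex.I)⁻¹ * Complex.log x
    unfold z
    field_simp
  · show jj (z x) = 1 * jj (z x)
    rw [one_mul]
  · show deriv jj (z x) = 2 * (Real.pi : ℂ) * Complex.I *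
      (deriv jj (z x) / (2 * (Real.pi : ℂ) * Complex.I))
    field_simp
  · show deriv (deriv jj) (z x) = (2 * (Real.pi : ℂ) * Complex.I) ^ 2 *
      (deriv (deriv jj) (z x) / (2 * (Real.pi : ℂ) * Complex.I) ^ 2)
    field_simp

lemma poly_an {κ : Type} (f : κ → ℂ → ℂ) (w : ℂ) (hf : ∀ i, AnalyticAt ℂ (f i) w)
    (P : MvPolynomial κ ℂ) : AnalyticAt ℂ (fun w => MvPolynomial.eval (fun i => f i w) P) w := by
  have h1 : (fun w => MvPolynomial.eval (fun i => f i w) P) =
      fun w => ∑ s ∈ P.support, P.coeff s * ∏ o ∈ s.support, (f o w) ^ s o := by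
    funext t
    rw [MvPolynomial.eval_eq]
  rw [h1]
  refine Finset.analyticAt_fun_sum _ fun s _ => analyticAt_const.mul ?_
  exact Finset.analyticAt_fun_prod _ fun o _ => (hf o).pow _

lemma upper_conn : IsPreconnected {w : ℂ | 0 < w.im} :=
  (convex_halfSpace_im_gt 0).isPreconnected

/-- Mahler: the five functions are algebraically independent -/
theorem five_ind (w0 : ℂ) (hw0 : 0 < w0.im) (P : MvPolynomial (Fin 5) ℂ)
    (hP : ∀ᶠ w in 𝓝 w0, MvPolynomial.eval (five w) P = 0) : P = 0 := by
  have hA : AnalyticOnNhd ℂ (fun w => MvPolynomial.eval (five w) P) {w : ℂ | 0 < w.im} :=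
    fun w hw => poly_an (fun i w => five w i) w (fun i => five_an i w hw) P
  have h2 := hA.eqOn_zero_of_preconnected_of_eventuallyEq_zero upper_conn hw0 hP
  let P' : MvPolynomial (Option (Fin 4)) ℂ :=
    MvPolynomial.aeval (fun i => MvPolynomial.C (sc i) * MvPolynomial.X (tau i)) P
  have hx : (1 / 2 : ℂ) ∈ SlitDisc := by
    constructor
    · norm_num
    · rw [Complex.mem_slitPlane_iff]
      left
      norm_num
  have h3 : P' = 0 := by
    refine locInd (1 / 2) hx P' ?_
    have ho : IsOpen SlitDisc :=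
      (isOpen_lt continuous_norm continuous_const).inter Complex.isOpen_slitPlane
    filter_upwards [ho.mem_nhds hx] with x hx'
    have h4 : MvPolynomial.eval (five (z x)) P = 0 := h2 (z_im x hx')
    show MvPolynomial.aeval (fun o : Option (Fin 4) => o.elim x fun y => four x y)
      (MvPolynomial.aeval (fun i => MvPolynomial.C (sc i) * MvPolynomial.X (tau i)) P) = 0
    rw [MvPolynomial.comp_aeval_apply, ← h4, ← MvPolynomial.coe_aeval_eq_eval]
    show MvPolynomial.aeval _ P = MvPolynomial.aeval _ P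
    congr 2
    funext i
    rw [map_mul, MvPolynomial.aeval_X, MvPolynomial.algHom_C, five_eq x hx' i]
    rfl
  have h5 : MvPolynomial.aeval (fun o : Option (Fin 4) =>
      MvPolynomial.C (sc (tau' o))⁻¹ * MvPolynomial.X (tau' o) : Option (Fin 4) →
        MvPolynomial (Fin 5) ℂ) P' = P := by
    show MvPolynomial.aeval _ (MvPolynomial.aeval _ P) = P
    rw [MvPolynomial.comp_aeval_apply]
    have h6 : (fun i : Fin 5 => MvPolynomial.aeval (fun o : Option (Fin 4) =>
        MvPolynomial.C (sc (tau' o))⁻¹ * MvPolynomial.X (tau' o) : Option (Fin 4) →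
          MvPolynomial (Fin 5) ℂ) (MvPolynomial.C (sc i) * MvPolynomial.X (tau i))) =
        MvPolynomial.X := by
      funext i
      rw [map_mul, MvPolynomial.aeval_X, MvPolynomial.algHom_C, tau_tau']
      rw [MvPolynomial.algebraMap_eq, ← mul_assoc, ← MvPolynomial.C_mul,
        mul_inv_cancel₀ (sc_ne i), MvPolynomial.C_1, one_mul]
    rw [h6]
    exact MvPolynomial.aeval_X_left_apply P
  rw [← h5, h3, map_zero]

end Pool.Agent.K1H12.MS
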