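import Pool.Agent.K1H12.MS.Five

/-!
# Analytic curves in the upper half-plane: the functions and the selection of the coordinates
-/

set_option autoImplicit false

open Set Filter Topology NumberField

namespace Pool.Agent.K1H12.MS

open Pool.Agent.TH21.MS (jj jj_an)

/-- a nonconstant analytic function from `Ω` to the upper half-plane -/
def Curve (Ω : Set ℂ) (ψ : ℂ → ℂ) : Prop :=
  AnalyticOnNhd ℂ ψ Ω ∧ (∀ t ∈ Ω, 0 < (ψ t).im) ∧ ∃ s ∈ Ω, ∃ t ∈ Ω, ψ s ≠ ψ t

section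

variable {Ω : Set ℂ} (hΩ : IsOpen Ω) (hc : IsPreconnected Ω)

include hΩ hc

theorem curve_ind {ψ : ℂ → ℂ} (hψ : Curve Ω ψ) (P : MvPolynomial (Fin 5) ℂ)
    (hP : ∀ t ∈ Ω, MvPolynomial.eval (five (ψ t)) P = 0) : P = 0 := by
  obtain ⟨ha, him, s, hs, t, ht, hst⟩ := hψ
  rcases ha.is_constant_or_isOpen hc with ⟨w, hw⟩ | h
  · exact absurd ((hw s hs).trans (hw t ht).symm) hst
  · have h1 := h Ω subset_rfl hΩ
    refine five_ind (ψ s) (him s hs) P ?_
    filter_upwards [h1.mem_nhds (mem_image_of_mem ψ hs)] with w hw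
    obtain ⟨x, hx, rfl⟩ := hw
    exact hP x hx

theorem curve_sel {ψ : ℂ → ℂ} (hψ : Curve Ω ψ) : ∃ e : Fin 4 → Fin 5, Function.Injective e ∧
    ∀ t ∈ Ω, Pool.Agent.Y124.LocInd (fun (i : Fin 4) t => five (ψ t) (e i)) t := by
  have hn : Ω.Nonempty := ⟨_, hψ.2.2.choose_spec.1⟩
  have han : ∀ i : Fin 5, AnalyticOnNhd ℂ (fun t => five (ψ t) i) Ω := fun i t ht =>
    AnalyticAt.fun_comp (g := fun w => five w i) (f := ψ) (five_an i (ψ t) (hψ.2.1 t ht))
      (hψ.1 t ht)
  obtain ⟨e, he, hE⟩ := exch_an hΩ hc hn (fun i t => five (ψ t) i) han (curve_ind hΩ hc hψ)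
  exact ⟨e, he, Pool.Agent.Y771.RP.locInd_of _ Ω hc (fun i t ht => han (e i) t ht) hE⟩

end

/-- at least three of the four coordinates differ from `0` -/
lemma three {e : Fin 4 → Fin 5} (he : Function.Injective e) :
    ∃ (a : Fin 3 → Fin 4) (u : Fin 3 → Fin 4), Function.Injective a ∧ Function.Injective u ∧
      ∀ i, e (a i) = (u i).succ := by
  obtain ⟨i0, hi0⟩ : ∃ i0, ∀ i, i ≠ i0 → e i ≠ 0 := by
    by_cases h : ∃ i0, e i0 = 0
    · obtain ⟨i0, h0⟩ := h
      exact ⟨i0, fun i hi h1 => hi (he (h1.trans h0.symm))⟩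
    · push Not at h
      exact ⟨0, fun i _ => h i⟩
  have h1 : ∀ i : Fin 3, e (i0.succAbove i) ≠ 0 := fun i => hi0 _ (Fin.succAbove_ne _ _)
  refine ⟨i0.succAbove, fun i => (e (i0.succAbove i)).pred (h1 i), Fin.succAbove_right_injective,
    fun i k hik => ?_, fun i => (Fin.succ_pred _ _).symm⟩
  have h2 : e (i0.succAbove i) = e (i0.succAbove k) := Fin.pred_inj.1 hik
  exact Fin.succAbove_right_injective (he h2)

/-- the statement without `π` for some of the variables -/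
lemma sub_measure {σ τ : Type} [Fintype σ] [DecidableEq σ] (F : Type) [Field F] [NumberField F]
    (ι : F →+* ℂ) {d : ℕ} {H η : ℝ} (hH : 0 ≤ H) (v : σ → ℂ)
    (h : Pool.Agent.R349.Gen.GoodG F ι (fun _ : Fin 1 => (1 : ℂ)) d H η v) (w : τ → σ)
    (hw : Function.Injective w) (Q : MvPolynomial τ (𝓞 F)) (hQ : ∀ i, Q.degreeOf i ≤ d)
    (hc : ∀ s (φ : F →+* ℂ), ‖φ ((Q.coeff s : 𝓞 F) : F)‖ ≤ H) (s : τ →₀ ℕ) :
    η * ‖ι ((Q.coeff s : 𝓞 F) : F)‖ ≤
      ‖MvPolynomial.eval₂ (ι.comp (algebraMap (𝓞 F) F)) (fun i => v (w i)) Q‖ := by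
  classical
  set j : 𝓞 F →+* ℂ := ι.comp (algebraMap (𝓞 F) F) with hj
  set R : MvPolynomial σ (𝓞 F) := MvPolynomial.rename w Q with hR
  set P : MvPolynomial σ ℂ := MvPolynomial.map j R with hP
  have hcR : ∀ u, (∃ s, Finsupp.mapDomain w s = u ∧ R.coeff u = Q.coeff s) ∨ R.coeff u = 0 := by
    intro u
    by_cases hu : ∃ s, Finsupp.mapDomain w s = u
    · obtain ⟨s, rfl⟩ := hu
      exact Or.inl ⟨s, rfl, MvPolynomial.coeff_rename_mapDomain w hw Q s⟩
    · right
      refine MvPolynomial.coeff_rename_eq_zero w Q u fun s hs => absurd ⟨s, hs⟩ hu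
  have hadm : Pool.Agent.R349.Gen.AdmG F ι (fun _ : Fin 1 => (1 : ℂ)) d H P := by
    refine ⟨fun x => ?_, fun u => ?_⟩
    · rw [MvPolynomial.degreeOf_le_iff]
      intro u hu
      have hu' : R.coeff u ≠ 0 := by
        intro h0
        rw [MvPolynomial.mem_support_iff, hP, MvPolynomial.coeff_map, h0, map_zero] at hu
        exact hu rfl
      rcases hcR u with ⟨s, rfl, hs⟩ | h0
      · by_cases hx : ∃ i, w i = x
        · obtain ⟨i, rfl⟩ := hx
          rw [Finsupp.mapDomain_apply hw]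
          refine (MvPolynomial.monomial_le_degreeOf i ?_).trans (hQ i)
          rw [MvPolynomial.mem_support_iff, ← hs]
          exact hu'
        · rw [Finsupp.mapDomain_notin_range]
          · exact Nat.zero_le _
          · exact fun ⟨i, hi⟩ => hx ⟨i, hi⟩
      · exact absurd h0 hu'
    · refine ⟨fun _ => R.coeff u, fun _ φ => ?_, ?_⟩
      · rcases hcR u with ⟨s, -, hs⟩ | h0
        · rw [hs]
          exact hc s φ
        · rw [h0]
          simpa using hH
      · rw [hP, MvPolynomial.coeff_map]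
        simp [hj]
  have h1 := h.1 P hadm (Finsupp.mapDomain w s)
  rw [hP, MvPolynomial.coeff_map, hR, MvPolynomial.coeff_rename_mapDomain w hw,
    MvPolynomial.aeval_def, MvPolynomial.eval₂_map] at h1
  have h2 : MvPolynomial.eval₂ ((algebraMap ℂ ℂ).comp j) v (MvPolynomial.rename w Q) =
      MvPolynomial.eval₂ j (fun i => v (w i)) Q := by
    rw [MvPolynomial.eval₂_rename]
    rfl
  rw [h2] at h1
  exact h1

end Pool.Agent.K1H12.MS
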