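import Pool.Agent.R349.Generic

/-!
# Polynomials over a number field with some variables specialised to complex numbers
-/

set_option autoImplicit false

open MvPolynomial NumberField

namespace Pool.Agent.K1H12.MS

variable {r : ℕ} {σ : Type}

/-- the polynomial `Q(c, X)` -/
noncomputable def sp (F : Type) [Field F] [NumberField F] (ι : F →+* ℂ) (c : Fin r → ℂ)
    (Q : MvPolynomial (Fin r ⊕ σ) (𝓞 F)) : MvPolynomial σ ℂ :=
  eval₂ (C.comp (ι.comp (algebraMap (𝓞 F) F))) (Sum.elim (fun i => C (c i)) X) Q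

/-- the exponent with given components -/
noncomputable def cmb {d : ℕ} (a : Fin r → Fin (d + 1)) (s : σ →₀ ℕ) : (Fin r ⊕ σ) →₀ ℕ :=
  Finsupp.sumElim (Finsupp.equivFunOnFinite.symm fun i => (a i : ℕ)) s

/-- the second component -/
noncomputable def snd (u : (Fin r ⊕ σ) →₀ ℕ) : σ →₀ ℕ := (Finsupp.sumFinsuppEquivProdFinsupp u).2

lemma snd_apply (u : (Fin r ⊕ σ) →₀ ℕ) (y : σ) : snd u y = u (Sum.inr y) := rfl

lemma cmb_inl {d : ℕ} (a : Fin r → Fin (d + 1)) (s : σ →₀ ℕ) (i : Fin r) :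
    cmb a s (Sum.inl i) = a i := rfl

lemma cmb_inr {d : ℕ} (a : Fin r → Fin (d + 1)) (s : σ →₀ ℕ) (y : σ) :
    cmb a s (Sum.inr y) = s y := rfl

lemma cmb_inj {d : ℕ} (s : σ →₀ ℕ) : Function.Injective fun a : Fin r → Fin (d + 1) => cmb a s := by
  intro a b hab
  funext i
  have := congrArg (fun u => u (Sum.inl i)) hab
  simp only [cmb_inl] at this
  exact Fin.ext this

section

variable [DecidableEq σ] (F : Type) [Field F] [NumberField F] (ι : F →+* ℂ) (c : Fin r → ℂ)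

lemma sp_eq (Q : MvPolynomial (Fin r ⊕ σ) (𝓞 F)) : sp F ι c Q =
    ∑ u ∈ Q.support, monomial (snd u)
      (ι ((Q.coeff u : 𝓞 F) : F) * ∏ i, c i ^ u (Sum.inl i)) := by
  rw [sp, eval₂_eq]
  refine Finset.sum_congr rfl fun u _ => ?_
  have h1 : ∏ i ∈ u.support, (Sum.elim (fun i => C (c i)) X : Fin r ⊕ σ → MvPolynomial σ ℂ) i ^ u i
      = C (∏ i, c i ^ u (Sum.inl i)) * monomial (snd u) 1 := by
    have h2 : (∏ i ∈ u.support,
        (Sum.elim (fun i => C (c i)) X : Fin r ⊕ σ → MvPolynomial σ ℂ) i ^ u i) =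
        u.prod fun i k => (Sum.elim (fun i => C (c i)) X : Fin r ⊕ σ → MvPolynomial σ ℂ) i ^ k := rfl
    have h3 : u = Finsupp.sumElim (Finsupp.sumFinsuppEquivProdFinsupp u).1
        (Finsupp.sumFinsuppEquivProdFinsupp u).2 := by
      exact (Finsupp.sumFinsuppEquivProdFinsupp.symm_apply_apply u).symm
    have h4 : (∏ i, c i ^ u (Sum.inl i)) =
        (Finsupp.sumFinsuppEquivProdFinsupp u).1.prod fun i k => c i ^ k := by
      rw [Finsupp.prod_fintype _ _ (fun _ => pow_zero _)]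
      rfl
    rw [h2, h4]
    conv_lhs => rw [h3]
    rw [Finsupp.prod_sumElim]
    congr 1
    · rw [map_finsuppProd]
      refine Finset.prod_congr rfl fun i _ => ?_
      simp
    · rw [monomial_eq, C_1, one_mul]
      rfl
  rw [h1, RingHom.comp_apply, ← mul_assoc, ← C_mul, C_mul_monomial, mul_one]
  rfl

lemma sp_coeff (Q : MvPolynomial (Fin r ⊕ σ) (𝓞 F)) (d : ℕ)
    (hd : ∀ i, Q.degreeOf (Sum.inl i) ≤ d) (s : σ →₀ ℕ) : (sp F ι c Q).coeff s =
    ∑ a : Fin r → Fin (d + 1), (∏ i, c i ^ (a i : ℕ)) * ι ((Q.coeff (cmb a s) : 𝓞 F) : F) := by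
  classical
  rw [sp_eq, coeff_sum]
  simp only [coeff_monomial]
  rw [← Finset.sum_filter]
  have h1 : ∑ a : Fin r → Fin (d + 1),
      (∏ i, c i ^ (a i : ℕ)) * ι ((Q.coeff (cmb a s) : 𝓞 F) : F) =
      ∑ u ∈ Finset.univ.image (fun a : Fin r → Fin (d + 1) => cmb a s),
        ι ((Q.coeff u : 𝓞 F) : F) * ∏ i, c i ^ u (Sum.inl i) := by
    rw [Finset.sum_image fun a _ b _ hab => cmb_inj s hab]
    refine Finset.sum_congr rfl fun a _ => ?_
    rw [mul_comm]
    rfl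
  rw [h1]
  refine Finset.sum_subset ?_ ?_
  · intro u hu
    rw [Finset.mem_filter] at hu
    rw [Finset.mem_image]
    refine ⟨fun i => ⟨u (Sum.inl i), Nat.lt_succ_of_le
      ((monomial_le_degreeOf _ hu.1).trans (hd i))⟩, Finset.mem_univ _, ?_⟩
    ext y
    rcases y with i | y
    · rfl
    · rw [cmb_inr, ← hu.2, snd_apply]
  · intro u hu hu'
    rw [Finset.mem_image] at hu
    obtain ⟨a, -, rfl⟩ := hu
    rw [Finset.mem_filter, not_and] at hu'
    have h2 : cmb a s ∉ Q.support := by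
      intro h
      refine hu' h ?_
      ext y
      rfl
    rw [notMem_support_iff.1 h2]
    simp

lemma sp_degree (Q : MvPolynomial (Fin r ⊕ σ) (𝓞 F)) (d : ℕ) (y : σ)
    (hd : Q.degreeOf (Sum.inr y) ≤ d) : (sp F ι c Q).degreeOf y ≤ d := by
  classical
  rw [degreeOf_le_iff]
  intro s hs
  rw [mem_support_iff, sp_eq, coeff_sum] at hs
  obtain ⟨u, hu, hu0⟩ := Finset.exists_ne_zero_of_sum_ne_zero hs
  rw [coeff_monomial] at hu0
  have h1 : snd u = s := by
    by_contra h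
    rw [if_neg h] at hu0
    exact hu0 rfl
  rw [← h1, snd_apply]
  exact (monomial_le_degreeOf _ hu).trans hd

/-- from the general notion `GoodG` -/
theorem indep_of_good {d : ℕ} {H η : ℝ} (v : σ → ℂ)
    (h : Pool.Agent.R349.Gen.GoodG F ι (fun i : Fin (Fintype.card (Fin r → Fin (d + 1))) =>
      ∏ k, c k ^ ((Fintype.equivFin (Fin r → Fin (d + 1))).symm i k : ℕ)) d H η v)
    (Q : MvPolynomial (Fin r ⊕ σ) (𝓞 F)) (hQ : ∀ y, Q.degreeOf y ≤ d)
    (hc : ∀ u (φ : F →+* ℂ), ‖φ ((Q.coeff u : 𝓞 F) : F)‖ ≤ H) (s : σ →₀ ℕ) :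
    η * ‖(sp F ι c Q).coeff s‖ ≤ ‖aeval v (sp F ι c Q)‖ := by
  refine h.1 _ ⟨fun y => sp_degree F ι c Q d y (hQ _), fun s => ?_⟩ s
  refine ⟨fun i => Q.coeff (cmb ((Fintype.equivFin (Fin r → Fin (d + 1))).symm i) s),
    fun i φ => hc _ φ, ?_⟩
  rw [sp_coeff F ι c Q d (fun i => hQ _)]
  exact (Equiv.sum_comp (Fintype.equivFin (Fin r → Fin (d + 1))).symm _).symm

end

end Pool.Agent.K1H12.MS
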